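import Pool.Agent.H636R2.SB.Main

set_option autoImplicit false

namespace Pool.Agent.Results.MP_fb6d12_an.DimensionThree

open Finset

/-- The `L^∞` normalised Haar function of the dyadic interval `[k 2^{-r}, (k+1) 2^{-r})`:
`-1` on its left half, `1` on its right half and `0` elsewhere. -/
noncomputable def haar1 (r k : ℕ) (x : ℝ) : ℝ :=
  if (k : ℝ) / 2^r ≤ x ∧ x < ((k : ℝ) + 1/2) / 2^r then -1
  else if ((k : ℝ) + 1/2) / 2^r ≤ x ∧ x < ((k : ℝ) + 1) / 2^r then 1 else 0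

/-- The dyadic rectangles of volume `2^{-n}` in `[0,1]^d`: the side lengths are `2^{-s_j}` with
`s_1 + ... + s_d = n`, and the `j`-th side is `[k_j 2^{-s_j}, (k_j+1) 2^{-s_j})`, `k_j < 2^{s_j}`. -/
abbrev Rect (d n : ℕ) : Type :=
  (s : {s : Fin d → Fin (n+1) // ∑ j, ((s j : Fin (n+1)) : ℕ) = n}) ×
    ((j : Fin d) → Fin (2 ^ ((s.1 j : Fin (n+1)) : ℕ)))

/-- The Haar function `h_R(x) = ∏_j h_{I_j}(x_j)` of a dyadic rectangle. -/
noncomputable def haar {d n : ℕ} (R : Rect d n) (x : Fin d → ℝ) : ℝ :=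
  ∏ j, haar1 (R.1.1 j) (R.2 j) (x j)

/-- The hyperbolic sum `∑_{|R| = 2^{-n}} a_R h_R`. -/
noncomputable def hyp {d n : ℕ} (a : Rect d n → ℝ) (x : Fin d → ℝ) : ℝ := ∑ R, a R * haar R x

/-- The supremum of `|∑ a_R h_R|` over the cube `[0,1]^d`. -/
noncomputable def supNorm {d n : ℕ} (a : Rect d n → ℝ) : ℝ :=
  ⨆ x : {x : Fin d → ℝ // ∀ j, x j ∈ Set.Icc (0:ℝ) 1}, |hyp a x|

theorem supNorm_eq {d n : ℕ} (a : Rect d n → ℝ) : supNorm a = HaarSB.supNorm a := rfl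

open Pool.Agent.H397R2.SD Pool.Agent.H636R2.SB

theorem supNorm_nonneg {n : ℕ} (a : Rect 3 n → ℝ) : 0 ≤ supNorm a := by
  rw [supNorm_eq]
  exact (abs_nonneg _).trans (sup_ge a (fun _ _ => true))

/-- trivial bound -/
theorem trivial_bound (n : ℕ) (a : Rect 3 n → ℝ) :
    ((2:ℝ)^n)⁻¹ * ∑ R, |a R| ≤ (SD n 1).card * supNorm a := by
  have h := main_ineq n 1 le_rfl a 1 ((SD n 1).card) ?_
  · rw [one_mul] at h
    rw [supNorm_eq]
    exact h
  · have h1 : ∀ x : Om n, |∑ s ∈ range (1 + 1), Y (sysG n (sgc a) (sgc_lead a) (sgc_le a)) 1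
        (fun _ _ => 1) x (n + 1) s ∅ ∅| ≤ ((SD n 1).card : ℝ) := by
      intro x
      rw [expansion]
      refine (Finset.abs_sum_le_sum_abs _ _).trans ?_
      rw [Finset.card_eq_sum_ones, Nat.cast_sum]
      refine Finset.sum_le_sum fun R _ => ?_
      rw [one_pow, one_mul, Finset.abs_prod, Nat.cast_one]
      exact Finset.prod_le_one (fun _ _ => abs_nonneg _) (fun r _ => Sys.f_le _ _ _ _)
    calc E (fun x : Om n => |∑ s ∈ range (1 + 1), Y (sysG n (sgc a) (sgc_lead a) (sgc_le a)) 1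
          (fun _ _ => 1) x (n + 1) s ∅ ∅|) ≤ E (fun _ : Om n => ((SD n 1).card : ℝ)) := SDA_E_mono h1
      _ = (SD n 1).card := by
        unfold E
        rw [Finset.sum_const, Finset.card_univ, nsmul_eq_mul]
        have : (Fintype.card (Om n) : ℝ) ≠ 0 := Nat.cast_ne_zero.2 Fintype.card_ne_zero
        field_simp

/-- the bound for large `n` -/
theorem large (n : ℕ) (hn : 10 ^ 18 * (Nat.log 2 (2 * n + 2) + 1) ^ 9 ≤ n) (a : Rect 3 n → ℝ) :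
    ((2:ℝ)^n)⁻¹ * ∑ R, |a R| ≤
      1170 * ((n:ℝ)^(7/8 : ℝ) * (Real.log ((n:ℝ) + 1))^(1/8 : ℝ) * supNorm a) := by
  obtain ⟨l, hl⟩ : ∃ l, l = Nat.log 2 (2 * n + 2) + 1 := ⟨_, rfl⟩
  rw [← hl] at hn
  have hl1 : 1 ≤ l := by omega
  obtain ⟨M, hM1, hM2, hM3⟩ := Np_M hl1 hn
  obtain ⟨hc1, hc2⟩ := Np_cond hM1 hl1 hM2 hn
  have hqq : qq n M = (4 * M + 8) * l := by rw [hl]; rfl
  rw [← hqq] at hc1 hc2
  have hmain := main_ineq n M (by omega) a (rho n M) 3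
    (L1_bound (sysG n (sgc a) (sgc_lead a) (sgc_le a)) M hM1 hc1 hc2)
  rw [← supNorm_eq] at hmain
  have hn12 : 1000 ≤ n := by
    have h1 : 10 ^ 18 * 1 ≤ n :=
      (Nat.mul_le_mul_left _ (Nat.one_le_pow 9 l hl1)).trans hn
    exact le_trans (by norm_num) h1
  have hnR : (1000 : ℝ) ≤ n := by exact_mod_cast hn12
  have hn0 : (0:ℝ) < n := by linarith
  have hLL : 2 ≤ Real.log ((n:ℝ) + 1) := by
    rw [Real.le_log_iff_exp_le (by linarith)]
    have h1 := Real.exp_one_lt_d9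
    have h2 : Real.exp 2 = Real.exp 1 * Real.exp 1 := by rw [← Real.exp_add]; norm_num
    have h3 : 0 < Real.exp 1 := Real.exp_pos 1
    nlinarith
  have hl4 : (l : ℝ) ≤ 4 * Real.log ((n:ℝ) + 1) := by
    have h1 : (2 : ℝ) ^ (Nat.log 2 (2 * n + 2)) ≤ 2 * (n + 1) := by
      have : 2 ^ (Nat.log 2 (2 * n + 2)) ≤ 2 * (n + 1) := by
        have := Nat.pow_log_le_self 2 (x := 2 * n + 2) (by omega)
        omega
      exact_mod_cast this
    have h3 := Real.log_le_log (by positivity) h1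
    rw [Real.log_pow, Real.log_mul (by norm_num) (by linarith)] at h3
    have h4 : (l : ℝ) = (Nat.log 2 (2 * n + 2) : ℝ) + 1 := by rw [hl]; push_cast; ring
    have h5 : (0 : ℝ) ≤ (Nat.log 2 (2 * n + 2) : ℝ) := Nat.cast_nonneg _
    have h6 := Real.log_two_gt_d9
    have h7 := Real.log_two_lt_d9
    rw [h4]
    nlinarith
  have hkey := Np_real (n := n) (M := M) (l := l) hM1 (by linarith) hl4 hM3
  set X : ℝ := ((2:ℝ)^n)⁻¹ * ∑ R, |a R| with hX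
  have hX0 : 0 ≤ X := by
    rw [hX]
    have : 0 ≤ ∑ R, |a R| := Finset.sum_nonneg fun _ _ => abs_nonneg _
    positivity
  have hS := supNorm_nonneg a
  set L : ℝ := Real.log ((n:ℝ) + 1) with hLdef
  have hL8 : 0 < L ^ (1/8 : ℝ) := Real.rpow_pos_of_pos (by linarith) _
  have hn98 : (n : ℝ) ^ (9 / 8 : ℝ) = n * (n : ℝ) ^ (1 / 8 : ℝ) := by
    have : (9 / 8 : ℝ) = 1 + 1 / 8 := by norm_num
    rw [this, Real.rpow_add hn0, Real.rpow_one]
  have hn1 : (n : ℝ) ^ (7 / 8 : ℝ) * (n : ℝ) ^ (1 / 8 : ℝ) = n := by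
    rw [← Real.rpow_add hn0]
    norm_num
  have hn18 : 0 < (n : ℝ) ^ (1 / 8 : ℝ) := Real.rpow_pos_of_pos hn0 _
  rw [div_le_iff₀ (by positivity), hn98] at hkey
  have hM0 : (0:ℝ) ≤ M := Nat.cast_nonneg M
  have hsq : Real.sqrt M ≤ 39 * Real.sqrt ((M:ℝ) / 1500) := by
    have h1 : (39:ℝ) = Real.sqrt (39^2) := by rw [Real.sqrt_sq]; norm_num
    rw [h1, ← Real.sqrt_mul (by norm_num)]
    apply Real.sqrt_le_sqrt
    nlinarith
  have hm2 : Real.sqrt ((M:ℝ) / 1500) * X ≤ 3 * (n * supNorm a) := by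
    unfold rho at hmain
    have h1 : Real.sqrt ((M:ℝ) / 1500) / n * X = (Real.sqrt ((M:ℝ) / 1500) * X) / n := by ring
    rw [h1, div_le_iff₀ hn0] at hmain
    linarith
  -- n^{1/8} ≤ 10 L^{1/8} √M
  have h8 : (n : ℝ) ^ (1 / 8 : ℝ) ≤ 10 * L ^ (1/8 : ℝ) * Real.sqrt M := by
    have h1 : n * (n : ℝ) ^ (1 / 8 : ℝ) ≤ n * (10 * L ^ (1/8 : ℝ) * Real.sqrt M) := by
      calc n * (n : ℝ) ^ (1 / 8 : ℝ) ≤ Real.sqrt M * n * (10 * L ^ (1/8 : ℝ)) := hkey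
        _ = _ := by ring
    exact le_of_mul_le_mul_left h1 hn0
  have h9 : (n : ℝ) ^ (1 / 8 : ℝ) * X ≤ 1170 * L ^ (1/8 : ℝ) * (n * supNorm a) := by
    calc (n : ℝ) ^ (1 / 8 : ℝ) * X ≤ 10 * L ^ (1/8 : ℝ) * Real.sqrt M * X :=
          mul_le_mul_of_nonneg_right h8 hX0
      _ ≤ 10 * L ^ (1/8 : ℝ) * (39 * Real.sqrt ((M:ℝ) / 1500)) * X := by
          apply mul_le_mul_of_nonneg_right _ hX0
          exact mul_le_mul_of_nonneg_left hsq (by positivity)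
      _ = 390 * L ^ (1/8 : ℝ) * (Real.sqrt ((M:ℝ) / 1500) * X) := by ring
      _ ≤ 390 * L ^ (1/8 : ℝ) * (3 * (n * supNorm a)) :=
          mul_le_mul_of_nonneg_left hm2 (by positivity)
      _ = _ := by ring
  have h10 : (n : ℝ) ^ (1 / 8 : ℝ) * X ≤
      (n : ℝ) ^ (1 / 8 : ℝ) * (1170 * ((n:ℝ)^(7/8 : ℝ) * L^(1/8 : ℝ) * supNorm a)) := by
    refine h9.trans (le_of_eq ?_)
    calc 1170 * L ^ (1/8 : ℝ) * (n * supNorm a) =
        1170 * L ^ (1/8 : ℝ) * (((n : ℝ) ^ (7 / 8 : ℝ) * (n : ℝ) ^ (1 / 8 : ℝ)) * supNorm a) := by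
          rw [hn1]
      _ = _ := by ring
  exact le_of_mul_le_mul_left h10 hn18

/-- The small ball inequality in dimension three with `n^{7/8} (log (n+1))^{1/8}`. -/
theorem result : ∃ c : ℝ, 0 < c ∧ ∀ n : ℕ, 1 ≤ n → ∀ a : Rect 3 n → ℝ,
    c * ((2:ℝ)^n)⁻¹ * ∑ R, |a R| ≤
      (n:ℝ)^(7/8 : ℝ) * (Real.log ((n:ℝ) + 1))^(1/8 : ℝ) * supNorm a := by
  obtain ⟨n₁, hn₁⟩ := Np_growth
  set B : ℝ := 1170 + ∑ n ∈ Finset.range n₁, 2 * ((SD n 1).card : ℝ) with hB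
  have hB0 : 0 ≤ ∑ n ∈ Finset.range n₁, 2 * ((SD n 1).card : ℝ) :=
    Finset.sum_nonneg fun _ _ => by positivity
  have hBpos : 0 < B := by rw [hB]; linarith
  refine ⟨1 / B, by positivity, fun n hn a => ?_⟩
  have hS := supNorm_nonneg a
  have hX0 : 0 ≤ ((2:ℝ)^n)⁻¹ * ∑ R, |a R| := by
    have : 0 ≤ ∑ R, |a R| := Finset.sum_nonneg fun _ _ => abs_nonneg _
    positivity
  have key : ((2:ℝ)^n)⁻¹ * ∑ R, |a R| ≤
      B * ((n:ℝ)^(7/8 : ℝ) * (Real.log ((n:ℝ) + 1))^(1/8 : ℝ) * supNorm a) := by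
    have hn1R : (1:ℝ) ≤ n := by exact_mod_cast hn
    have hlog : 0 ≤ Real.log ((n:ℝ) + 1) := Real.log_nonneg (by linarith)
    rcases Nat.lt_or_ge n n₁ with hlt | hge
    · refine (trivial_bound n a).trans ?_
      have h1 : 2 * ((SD n 1).card : ℝ) ≤ B := by
        have h2 := Finset.single_le_sum (f := fun n : ℕ => 2 * ((SD n 1).card : ℝ))
          (fun _ _ => by positivity) (Finset.mem_range.2 hlt)
        rw [hB]
        linarith
      have h2 : (1:ℝ) ≤ (n:ℝ)^(7/8 : ℝ) := Real.one_le_rpow hn1R (by norm_num)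
      have h3 : (1/2:ℝ) ≤ (Real.log ((n:ℝ) + 1))^(1/8 : ℝ) := by
        have h4 : (1/2:ℝ) ≤ Real.log ((n:ℝ) + 1) := by
          have h5 := Real.log_two_gt_d9
          have h6 : Real.log 2 ≤ Real.log ((n:ℝ) + 1) :=
            Real.log_le_log (by norm_num) (by linarith)
          linarith
        calc (1/2:ℝ) = (1/2:ℝ)^(1:ℝ) := by rw [Real.rpow_one]
          _ ≤ (1/2:ℝ)^(1/8:ℝ) :=
              Real.rpow_le_rpow_of_exponent_ge (by norm_num) (by norm_num) (by norm_num)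
          _ ≤ (Real.log ((n:ℝ) + 1))^(1/8 : ℝ) :=
              Real.rpow_le_rpow (by norm_num) h4 (by norm_num)
      have h4 : (1/2:ℝ) ≤ (n:ℝ)^(7/8 : ℝ) * (Real.log ((n:ℝ) + 1))^(1/8 : ℝ) := by
        nlinarith
      calc ((SD n 1).card : ℝ) * supNorm a = (2 * ((SD n 1).card : ℝ)) * ((1/2) * supNorm a) := by ring
        _ ≤ B * ((n:ℝ)^(7/8 : ℝ) * (Real.log ((n:ℝ) + 1))^(1/8 : ℝ) * supNorm a) := by
            apply mul_le_mul h1 _ (by positivity) hBpos.le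
            exact mul_le_mul_of_nonneg_right h4 hS
    · refine (large n (hn₁ n hge) a).trans ?_
      apply mul_le_mul_of_nonneg_right _ (by positivity)
      rw [hB]
      linarith
  calc 1 / B * ((2:ℝ)^n)⁻¹ * ∑ R, |a R| = (1 / B) * (((2:ℝ)^n)⁻¹ * ∑ R, |a R|) := by ring
    _ ≤ (1 / B) * (B * ((n:ℝ)^(7/8 : ℝ) * (Real.log ((n:ℝ) + 1))^(1/8 : ℝ) * supNorm a)) :=
        mul_le_mul_of_nonneg_left key (by positivity)
    _ = _ := by field_simp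

end Pool.Agent.Results.MP_fb6d12_an.DimensionThree
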